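import Pool.Agent.Helper42.FR.Stmts

/-!
# Row FN: the products `f_n` almost commute with `h`, `e`, `s⁻¹ e s`
-/

set_option autoImplicit false

namespace Pool.Agent.Helper24.FR

open Matrix Pool.Agent.Helper81.Fmr Pool.Agent.Helper42.FR

universe u

section
variable {F : Type u} [Field F] {b : ℕ}

theorem ae_refl (X : Matrix (Fin b) (Fin b) F) (d : ℕ) : AE d X X := by
  simp [AE]

theorem ae_of_eq {X Y : Matrix (Fin b) (Fin b) F} (h : X = Y) (d : ℕ) : AE d X Y := by
  subst h; exact ae_refl X d

theorem ae_mono {X Y : Matrix (Fin b) (Fin b) F} {d d' : ℕ} (h : AE d X Y) (hd : d ≤ d') :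
    AE d' X Y := le_trans h hd

theorem ae_trans {X Y Z : Matrix (Fin b) (Fin b) F} {d d' : ℕ} (h : AE d X Y) (h' : AE d' Y Z) :
    AE (d + d') X Z := by
  unfold AE at *
  have e : X - Z = (X - Y) + (Y - Z) := by abel
  rw [e]
  exact (rank_add_le' _ _).trans (add_le_add h h')

theorem ae_symm {X Y : Matrix (Fin b) (Fin b) F} {d : ℕ} (h : AE d X Y) : AE d Y X := by
  unfold AE at *
  have e : Y - X = (X - Y) * (-1 : Matrix (Fin b) (Fin b) F) := by simp
  rw [e]
  exact (Matrix.rank_mul_le_left _ _).trans h

theorem ae_left {X Y : Matrix (Fin b) (Fin b) F} {d : ℕ} (A : Matrix (Fin b) (Fin b) F)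
    (h : AE d X Y) : AE d (A * X) (A * Y) := by
  unfold AE at *
  rw [← Matrix.mul_sub]
  exact (Matrix.rank_mul_le_right _ _).trans h

theorem ae_right {X Y : Matrix (Fin b) (Fin b) F} {d : ℕ} (A : Matrix (Fin b) (Fin b) F)
    (h : AE d X Y) : AE d (X * A) (Y * A) := by
  unfold AE at *
  rw [← Matrix.sub_mul]
  exact (Matrix.rank_mul_le_left _ _).trans h

theorem comm_fn (s s' e x : Matrix (Fin b) (Fin b) F) (C d : ℕ)
    (h : ∀ j, AE (C * 3 ^ j * d) (x * ej s s' e (j + 1)) (ej s s' e (j + 1) * x)) (n : ℕ) :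
    AE (C * 3 ^ n * d) (x * fn s s' e n) (fn s s' e n * x) := by
  induction n with
  | zero => exact ae_of_eq (by simp [fn]) _
  | succ n ih =>
    have a1 : AE (C * 3 ^ n * d) (x * fn s s' e (n + 1)) (fn s s' e n * x * ej s s' e (n + 1)) := by
      have := ae_right (ej s s' e (n + 1)) ih
      rw [show x * fn s s' e (n + 1) = x * fn s s' e n * ej s s' e (n + 1) by
        simp [fn, Matrix.mul_assoc]]
      exact this
    have a2 : AE (C * 3 ^ n * d) (fn s s' e n * x * ej s s' e (n + 1))
        (fn s s' e (n + 1) * x) := by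
      have := ae_left (fn s s' e n) (h n)
      rw [Matrix.mul_assoc, show fn s s' e (n + 1) * x = fn s s' e n * (ej s s' e (n + 1) * x) by
        simp [fn, Matrix.mul_assoc]]
      exact this
    refine ae_mono (ae_trans a1 a2) ?_
    rw [pow_succ]
    nlinarith [Nat.zero_le (C * 3 ^ n * d)]

theorem conj_fn (s s' e : Matrix (Fin b) (Fin b) F) (d : ℕ) (hss : AE d (s' * s) 1) (n : ℕ) :
    AE (n * d) (s * (e * fn s s' e n) * s') (fn s s' e (n + 1)) := by
  induction n with
  | zero => exact ae_of_eq (by simp [fn, ej]) _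
  | succ n ih =>
    have a1 : AE (n * d) (s * (e * fn s s' e n) * s' * (s * ej s s' e (n + 1) * s'))
        (fn s s' e (n + 2)) := by
      have := ae_right (s * ej s s' e (n + 1) * s') ih
      rw [show fn s s' e (n + 2) = fn s s' e (n + 1) * (s * ej s s' e (n + 1) * s') by
        simp [fn, ej]]
      exact this
    have a2 : AE d (s * (e * fn s s' e (n + 1)) * s')
        (s * (e * fn s s' e n) * s' * (s * ej s s' e (n + 1) * s')) := by
      have := ae_symm (ae_left (s * (e * fn s s' e n)) (ae_right (ej s s' e (n + 1) * s') hss))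
      rw [show s * (e * fn s s' e (n + 1)) * s' =
          s * (e * fn s s' e n) * (1 * (ej s s' e (n + 1) * s')) by
        simp [fn, Matrix.mul_assoc],
        show s * (e * fn s s' e n) * s' * (s * ej s s' e (n + 1) * s') =
          s * (e * fn s s' e n) * (s' * s * (ej s s' e (n + 1) * s')) by
        simp [Matrix.mul_assoc]]
      exact this
    refine ae_mono (ae_trans a2 a1) ?_
    nlinarith

end

theorem st_FN (F : Type u) [Field F] (h1 : ST_GR F) : ST_FN F := by
  obtain ⟨C, hC⟩ := h1
  refine ⟨3 * C + 7, ?_⟩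
  intro b d s s' t t' h h' k e R n
  have G := hC b d s s' t t' h h' k e R
  have hp : 1 ≤ 3 ^ n := Nat.one_le_pow _ _ (by norm_num)
  have hn : n < 3 ^ n := Nat.lt_pow_self (by norm_num)
  have m1 : C * 3 ^ n * d ≤ (3 * C + 7) * 3 ^ n * d := by
    gcongr; omega
  refine ⟨ae_mono (comm_fn s s' e h C d (fun j => (G j).2.2.1) n) m1,
    ae_mono (comm_fn s s' e e C d (fun j => (G j).2.2.2) n) m1, ?_, ?_, ?_⟩
  · -- `s' e s`
    have key : ∀ j, AE ((3 * C + 2) * 3 ^ j * d) (s' * e * s * ej s s' e (j + 1))
        (ej s s' e (j + 1) * (s' * e * s)) := by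
      intro j
      have a1 : AE d (s' * e * s * ej s s' e (j + 1)) (s' * (e * ej s s' e (j + 2)) * s) := by
        have := ae_symm (ae_left (s' * e * (s * ej s s' e (j + 1))) R.ss')
        rw [Matrix.mul_one] at this
        rw [show s' * e * s * ej s s' e (j + 1) = s' * e * (s * ej s s' e (j + 1)) by
          simp [Matrix.mul_assoc], show s' * (e * ej s s' e (j + 2)) * s =
          s' * e * (s * ej s s' e (j + 1)) * (s' * s) by simp [ej, Matrix.mul_assoc]]
        exact this
      have a2 : AE (C * 3 ^ (j + 1) * d) (s' * (e * ej s s' e (j + 2)) * s)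
          (s' * (ej s s' e (j + 2) * e) * s) :=
        ae_right s (ae_left s' (G (j + 1)).2.2.2)
      have a3 : AE d (s' * (ej s s' e (j + 2) * e) * s) (ej s s' e (j + 1) * (s' * e * s)) := by
        have := ae_right (ej s s' e (j + 1) * (s' * e * s)) R.ss'
        rw [Matrix.one_mul] at this
        rw [show s' * (ej s s' e (j + 2) * e) * s =
          s' * s * (ej s s' e (j + 1) * (s' * e * s)) by simp [ej, Matrix.mul_assoc]]
        exact this
      refine ae_mono (ae_trans (ae_trans a1 a2) a3) ?_
      have hj : 1 ≤ 3 ^ j := Nat.one_le_pow _ _ (by norm_num)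
      rw [pow_succ]
      nlinarith [Nat.mul_le_mul_right d hj]
    refine ae_mono (comm_fn s s' e (s' * e * s) (3 * C + 2) d key n) ?_
    gcongr; omega
  · refine ae_mono (conj_fn s s' e d R.ss' n) ?_
    have : n ≤ (3 * C + 7) * 3 ^ n := by nlinarith
    exact Nat.mul_le_mul_right d this
  · -- commute `e` and `s' e s`
    have b1 : AE (3 * d) (e * (s' * e * s)) (s' * e * s * e) := by
      have c1 : AE d (e * (s' * e * s)) (s' * (s * e * s' * e) * s) := by
        have := ae_symm (ae_right (e * (s' * e * s)) R.ss')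
        rw [Matrix.one_mul] at this
        rw [show s' * (s * e * s' * e) * s = s' * s * (e * (s' * e * s)) by
          simp [Matrix.mul_assoc]]
        exact this
      have c2 : AE d (s' * (s * e * s' * e) * s) (s' * (e * (s * e * s')) * s) :=
        ae_symm (ae_right s (ae_left s' R.ee1))
      have c3 : AE d (s' * (e * (s * e * s')) * s) (s' * e * s * e) := by
        have := ae_left (s' * e * s * e) R.ss'
        rw [Matrix.mul_one] at this
        rw [show s' * (e * (s * e * s')) * s = s' * e * s * e * (s' * s) by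
          simp [Matrix.mul_assoc]]
        exact this
      exact ae_mono (ae_trans (ae_trans c1 c2) c3) (by omega)
    have b2 : AE (3 * d) (s * (s * (e * (s' * e * s) * fn s s' e n) * s') * s')
        (s * (s * (s' * e * s * e * fn s s' e n) * s') * s') :=
      ae_right s' (ae_left s (ae_right s' (ae_left s (ae_right _ b1))))
    have b3 : AE d (s * (s * (s' * e * s * e * fn s s' e n) * s') * s')
        (s * (e * (s * (e * fn s s' e n) * s')) * s') := by
      have := ae_right s' (ae_left s (ae_right (e * (s * (e * fn s s' e n) * s')) R.ss))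
      rw [Matrix.one_mul] at this
      rw [show s * (s * (s' * e * s * e * fn s s' e n) * s') * s' =
        s * (s * s' * (e * (s * (e * fn s s' e n) * s'))) * s' by simp [Matrix.mul_assoc]]
      exact this
    have b4 : AE (n * d) (s * (e * (s * (e * fn s s' e n) * s')) * s')
        (s * (e * fn s s' e (n + 1)) * s') :=
      ae_right s' (ae_left s (ae_left e (conj_fn s s' e d R.ss' n)))
    have b5 := conj_fn s s' e d R.ss' (n + 1)
    refine ae_mono (ae_trans (ae_trans (ae_trans b2 b3) b4) b5) ?_
    have : 3 + 1 + n + (n + 1) ≤ (3 * C + 7) * 3 ^ n := by nlinarith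
    calc 3 * d + d + n * d + (n + 1) * d = (3 + 1 + n + (n + 1)) * d := by ring
      _ ≤ _ := Nat.mul_le_mul_right d this

end Pool.Agent.Helper24.FR
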